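import Pool.Agent.K6.H17.EX.Num

/-!
# The value of the knots at a square root of `-1`
-/

set_option autoImplicit false

namespace Pool.Agent.K6.H17.EX

open Pool.Agent.H835R2.Knot (Piece Word)
open Pool.Agent.H838R2.SL hiding ev ev_add ev_mk ev_smul
open Pool.Agent.H838R2.Jones
open Pool.Agent.Helper454.Wh (insD delD swpD noD OPiece OWord)
open Pool.Agent.K6.H17.RB Pool.Agent.K6.H17.RB.Tr
open Finset

section
variable {S : Type} [CommRing S] {e : S}

theorem op_append (a w : Word) (d : ℕ → Bool) (f : F S) : opD e (-e) (a ++ w) d f =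
    opD e (-e) a d (opD e (-e) w (dirW (a.map toO) d) f) := by
  show opW e (-e) ((a ++ w).map toO) d f = opW e (-e) (a.map toO) d
    (opW e (-e) (w.map toO) (dirW (a.map toO) d) f)
  rw [List.map_append, opW_append]

omit [CommRing S] in
theorem dw_app (a b : OWord) (d : ℕ → Bool) : dirW (a ++ b) d = dirW b (dirW a d) := by
  induction a generalizing d with
  | nil => rfl
  | cons p a iha => exact iha _

/-- the function with integral coefficients -/
def L (e : S) (v : ℤ × ℤ) : F S := lin e ty ![(v.1 : S), (v.2 : S) * e]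

/-- a letter -/
def act (x : Bool) (v : ℤ × ℤ) : ℤ × ℤ := if x then (v.1, v.2 + 2 * v.1) else (v.1 + 2 * v.2, v.2)
/-- the inverse of a letter -/
def aci (x : Bool) (v : ℤ × ℤ) : ℤ × ℤ := if x then (v.1, v.2 - 2 * v.1) else (v.1 - 2 * v.2, v.2)
/-- a word -/
def actw : List Bool → ℤ × ℤ → ℤ × ℤ
  | [], v => v
  | x :: xs, v => act x (actw xs v)
/-- the inverse of a word -/
def aciw : List Bool → ℤ × ℤ → ℤ × ℤ
  | [], v => v
  | x :: xs, v => aciw xs (aci x v)

variable (he : e * e = -1) (β : Bool)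
include he

theorem op_lt (x : Bool) (v : ℤ × ℤ) : opD e (-e) (lt x) (e4 β) (L e v) = L e (act x v) := by
  unfold L
  rw [op_lin he ty ty _ _ (cl x) (k_l β x)]
  congr 1
  funext j
  cases x <;> fin_cases j <;> simp [cl, act, Fin.sum_univ_two]
  · linear_combination (-2 * (v.2 : S)) * he
  · ring

theorem op_li (x : Bool) (v : ℤ × ℤ) : opD e (-e) (li x) (e4 β) (L e v) = L e (aci x v) := by
  unfold L
  rw [op_lin he ty ty _ _ (ci x) (k_i β x)]
  congr 1
  funext j
  cases x <;> fin_cases j <;> simp [ci, aci, Fin.sum_univ_two]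
  · linear_combination (2 * (v.2 : S)) * he
  · ring

theorem op_wd (xs : List Bool) (v : ℤ × ℤ) :
    opD e (-e) (wd xs) (e4 β) (L e v) = L e (actw xs v) := by
  induction xs with
  | nil => rfl
  | cons x xs ih => rw [wd, op_append, dw_lt, ih, op_lt he]; rfl

omit [CommRing S] he in
theorem dw_wi (xs : List Bool) : dirW ((wi xs).map toO) (e4 β) = e4 β := by
  induction xs with
  | nil => rfl
  | cons x xs ih =>
    rw [wi, List.map_append]
    rw [dw_app, ih, dw_li]

theorem op_wi (xs : List Bool) (v : ℤ × ℤ) :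
    opD e (-e) (wi xs) (e4 β) (L e v) = L e (aciw xs v) := by
  induction xs generalizing v with
  | nil => rfl
  | cons x xs ih => rw [wi, op_append, dw_wi, op_li he, ih]; rfl

theorem op_aj (j : Bool) (v : ℤ × ℤ) :
    opD e (-e) (aj j) (e4 β) (L e v) = L e (if j then act true v else v) := by
  cases j
  · rfl
  · exact op_lt he β true v

/-- the matrix of a finger -/
def mT (e : S) (t : Fin 5 → S) : Fin 5 → S :=
  ![4 * t 0, 2 * t 1, -3 * e * t 0 - t 1 + t 2, -3 * e * t 1 + t 3 - 3 * e * t 4,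
    2 * t 1 + 4 * t 4]
/-- the matrix of the first finger -/
def mB (e : S) (t : Fin 5 → S) : Fin 2 → S :=
  ![-e * t 1 + t 3 - e * t 4, -e * t 0 + t 1 + t 2]
/-- the matrix of the free finger -/
def mE (e : S) (t : Fin 5 → S) : Fin 2 → S :=
  ![e * t 1 + t 3 + e * t 4, e * t 0 + t 1 + t 2]

theorem op_T (t : Fin 5 → S) : opD e (-e) (tT β) (e6 β) (lin e tm t) = lin e tm (mT e t) := by
  rw [op_lin he tm tm _ _ cT (k_T β)]
  congr 1
  funext j
  fin_cases j <;> simp [cT, mT, Fin.sum_univ_five] <;> ring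

theorem op_B (t : Fin 5 → S) : opD e (-e) (eB β) (e4 β) (lin e tm t) = lin e ty (mB e t) := by
  rw [op_lin he tm ty _ _ cB (k_B β)]
  congr 1
  funext j
  fin_cases j <;> simp [cB, mB, Fin.sum_univ_five] <;> ring

omit [CommRing S] he in
theorem dw_BT (n : ℕ) : dirW ((eB β ++ tn β n).map toO) (e4 β) = e6 β := by
  induction n with
  | zero =>
    show dirW ((eB β ++ []).map toO) _ = _
    rw [List.append_nil, dw_B]
  | succ n ih2 =>
    rw [tn, ← List.append_assoc, List.map_append, dw_app, ih2, dw_T]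

theorem op_BT (n : ℕ) (t : Fin 5 → S) : opD e (-e) (eB β ++ tn β n) (e4 β) (lin e tm t) =
    lin e ty (mE e t + (4 : S) ^ n • (mB e t - mE e t)) := by
  induction n generalizing t with
  | zero =>
    show opD e (-e) (eB β ++ []) (e4 β) _ = _
    rw [List.append_nil, op_B he, pow_zero, one_smul, add_sub_cancel]
  | succ n ih =>
    rw [tn, ← List.append_assoc, op_append, dw_BT, op_T he, ih]
    congr 1
    funext j
    have h1 : mE e (mT e t) = mE e t := by
      funext j
      fin_cases j <;> simp [mE, mT] <;> ring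
    have h2 : mB e (mT e t) = mE e t + (4 : S) • (mB e t - mE e t) := by
      funext j
      fin_cases j <;> simp [mB, mE, mT] <;> ring
    rw [h1, h2]
    simp only [Pi.add_apply, Pi.smul_apply, Pi.sub_apply, smul_eq_mul, pow_succ]
    ring

theorem op_h (t : Fin 2 → S) : opD e (-e) hT (e6 β) (lin e ty t) =
    lin e tm ![-2 * e * t 1, -2 * e * t 0, -t 1, -t 0, 0] := by
  rw [op_lin he ty tm _ _ ch (k_h β)]
  congr 1
  funext j
  fin_cases j <;> simp [ch, Fin.sum_univ_two] <;> ring

/-- **The operator of the tangle.** -/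
theorem op_Y (n : ℕ) (v : ℤ × ℤ) : opD e (-e) (Yn β n) (e4 β) (L e v) =
    L e (v - (4 : ℤ) ^ (n + 1) • act true v) := by
  have h1 : opD e (-e) ([.pos 0, .pos 0] : Word) (e4 β) (L e v) = L e (act true v) :=
    op_lt he β true v
  rw [Yn, op_append (eB β ++ tn β n) _, dw_BT, op_append hT _, dw_h, h1]
  unfold L
  rw [op_h he, op_BT he]
  congr 1
  funext j
  fin_cases j
  · simp [mE, mB, act]
    linear_combination (-2 * (v.1 : S) + 4 * 4 ^ n * (v.1 : S)) * he
  · simp [mE, mB, act]
    linear_combination (e * (-2 * (v.2 : S) + 4 * 4 ^ n * v.2 - 4 * v.1 + 8 * 4 ^ n * v.1)) * he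

end

end Pool.Agent.K6.H17.EX
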