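import Pool.Agent.K6.H17.EX.Act

/-!
# Many different values
-/

set_option autoImplicit false

namespace Pool.Agent.K6.H17.EX

/-- the determinant -/
def det2 (a b : ℤ × ℤ) : ℤ := a.1 * b.2 - a.2 * b.1
/-- the product of a row and a column -/
def dot (r v : ℤ × ℤ) : ℤ := r.1 * v.1 + r.2 * v.2
/-- a letter, acting on rows -/
def rx (x : Bool) (r : ℤ × ℤ) : ℤ × ℤ := if x then (r.1 + 2 * r.2, r.2) else (r.1, 2 * r.1 + r.2)
/-- a word, acting on rows -/
def rw2 : List Bool → ℤ × ℤ → ℤ × ℤ
  | [], r => r
  | x :: xs, r => rw2 xs (rx x r)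

theorem dot_act (x : Bool) (r v : ℤ × ℤ) : dot r (act x v) = dot (rx x r) v := by
  cases x <;> simp [dot, act, rx] <;> ring

theorem dot_actw (xs : List Bool) (r v : ℤ × ℤ) : dot r (actw xs v) = dot (rw2 xs r) v := by
  induction xs generalizing r with
  | nil => rfl
  | cons x xs ih => rw [actw, dot_act, ih]; rfl

theorem det_act (x : Bool) (a b : ℤ × ℤ) : det2 (act x a) (act x b) = det2 a b := by
  cases x <;> simp [det2, act] <;> ring

theorem det_actw (xs : List Bool) (a b : ℤ × ℤ) : det2 (actw xs a) (actw xs b) = det2 a b := by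
  induction xs with
  | nil => rfl
  | cons x xs ih => rw [actw, actw, det_act, ih]

theorem det_aci (x : Bool) (a b : ℤ × ℤ) : det2 (aci x a) b = det2 a (act x b) := by
  cases x <;> simp [det2, act, aci] <;> ring

theorem det_aciw (xs : List Bool) (a b : ℤ × ℤ) : det2 (aciw xs a) b = det2 a (actw xs b) := by
  induction xs generalizing a with
  | nil => rfl
  | cons x xs ih => rw [aciw, ih, det_aci, actw]

/-- the first row -/
def row (xs : List Bool) : ℤ × ℤ := rw2 xs (1, 0)

theorem actw_fst (xs : List Bool) (v : ℤ × ℤ) : (actw xs v).1 = dot (row xs) v := by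
  have := dot_actw xs (1, 0) v
  rw [← row] at this
  rw [← this]
  simp [dot]

/-- the number which distinguishes the knots -/
def phi (j : Bool) (xs : List Bool) : ℤ :=
  (row xs).2 * ((row xs).1 + (if j then 2 else 0) * (row xs).2)

/-- **The value.** -/
theorem value (xs : List Bool) (j : Bool) (k : ℤ) :
    (aciw xs (actw xs (if j then (1, 2) else (1, 0)) - k • act true (actw xs
      (if j then (1, 2) else (1, 0))))).1 = 1 - k * (1 - 2 * phi j xs) := by
  set v : ℤ × ℤ := if j then (1, 2) else (1, 0) with hv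
  have h1 : ∀ u : ℤ × ℤ, u.1 = det2 u (0, 1) := fun u => by simp [det2]
  rw [h1, det_aciw]
  have h2 := det_actw xs v (0, 1)
  have h3 : det2 v (0, 1) = 1 := by rw [← h1, hv]; cases j <;> rfl
  have h4 := actw_fst xs v
  have h5 := actw_fst xs (0, 1)
  rw [h3] at h2
  have h6 : (row xs).2 = (actw xs (0, 1)).1 := by rw [h5]; simp [dot]
  have h7 : (row xs).1 + (if j then 2 else 0) * (row xs).2 = (actw xs v).1 := by
    rw [h4, hv]; cases j <;> simp [dot]; ring
  rw [phi, h7, h6]
  simp only [det2, act, Prod.fst_sub, Prod.snd_sub, Prod.smul_fst, Prod.smul_snd, smul_eq_mul,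
    if_true] at h2 ⊢
  linear_combination (1 - k) * h2

/-! ### injectivity -/

theorem rw2_append (xs : List Bool) (x : Bool) (r : ℤ × ℤ) : rw2 (xs ++ [x]) r = rx x (rw2 xs r) := by
  induction xs generalizing r with
  | nil => rfl
  | cons y xs ih => exact ih _

theorem rw2_pos (xs : List Bool) {r : ℤ × ℤ} (h : 0 < r.1 ∧ 0 < r.2) :
    0 < (rw2 xs r).1 ∧ 0 < (rw2 xs r).2 := by
  induction xs generalizing r with
  | nil => exact h
  | cons x xs ih =>
    refine ih ?_
    obtain ⟨h1, h2⟩ := h
    cases x <;> simp [rx] <;> constructor <;> linarith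

theorem rw2_inj (n : ℕ) {xs ys : List Bool} (hx : xs.length = n) (hy : ys.length = n) {r : ℤ × ℤ}
    (h : 0 < r.1 ∧ 0 < r.2) (he : rw2 xs r = rw2 ys r) : xs = ys := by
  induction n generalizing xs ys with
  | zero =>
    rw [List.length_eq_zero_iff.1 hx, List.length_eq_zero_iff.1 hy]
  | succ n ih =>
    obtain ⟨xs', x, rfl⟩ : ∃ l a, xs = l ++ [a] := by
      rcases List.eq_nil_or_concat xs with rfl | ⟨l, a, rfl⟩
      · simp at hx
      · exact ⟨l, a, by simp⟩
    obtain ⟨ys', y, rfl⟩ : ∃ l a, ys = l ++ [a] := by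
      rcases List.eq_nil_or_concat ys with rfl | ⟨l, a, rfl⟩
      · simp at hy
      · exact ⟨l, a, by simp⟩
    rw [rw2_append, rw2_append] at he
    obtain ⟨a1, a2⟩ := rw2_pos xs' h
    obtain ⟨b1, b2⟩ := rw2_pos ys' h
    have hx' : xs'.length = n := by simpa using hx
    have hy' : ys'.length = n := by simpa using hy
    have e1 := congrArg Prod.fst he
    have e2 := congrArg Prod.snd he
    have key : x = y ∧ rw2 xs' r = rw2 ys' r := by
      cases x <;> cases y <;> simp only [rx, if_true] at e1 e2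
      · refine ⟨rfl, Prod.ext ?_ ?_⟩
        · simpa using e1
        · simp at e1 e2; linarith
      · simp at e1 e2; exfalso; linarith
      · simp at e1 e2; exfalso; linarith
      · refine ⟨rfl, Prod.ext ?_ ?_⟩
        · linarith
        · exact e2
    rw [key.1, ih hx' hy' key.2]

/-- the words -/
def wrd {n : ℕ} (f : Fin n → Bool) : List Bool := false :: List.ofFn f

theorem len_wrd {n : ℕ} (f : Fin n → Bool) : (wrd f).length = n + 1 := by simp [wrd]

theorem phi_inj {n : ℕ} {f g : Fin n → Bool} (h0 : phi false (wrd f) = phi false (wrd g))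
    (h1 : phi true (wrd f) = phi true (wrd g)) : f = g := by
  have hp : (0 : ℤ) < ((1 : ℤ), (2 : ℤ)).1 ∧ (0 : ℤ) < ((1 : ℤ), (2 : ℤ)).2 := by constructor <;> norm_num
  have ef : ∀ f : Fin n → Bool, row (wrd f) = rw2 (List.ofFn f) (1, 2) := fun f => rfl
  obtain ⟨a1, a2⟩ := rw2_pos (List.ofFn f) hp
  obtain ⟨b1, b2⟩ := rw2_pos (List.ofFn g) hp
  rw [phi, phi, ef, ef] at h0 h1
  set a := rw2 (List.ofFn f) (1, 2)
  set b := rw2 (List.ofFn g) (1, 2)
  simp only [if_true, Bool.false_eq_true, if_false, zero_mul, add_zero] at h0 h1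
  have h2 : a.2 ^ 2 = b.2 ^ 2 := by nlinarith
  have h3 : a.2 = b.2 := by
    have := (sq_eq_sq₀ a2.le b2.le).1 h2
    exact this
  have h4 : a.1 = b.1 := by
    rw [h3] at h0
    exact mul_left_cancel₀ (ne_of_gt b2) h0
  have h5 : List.ofFn f = List.ofFn g :=
    rw2_inj n (by simp) (by simp) hp (Prod.ext h4 h3)
  exact List.ofFn_injective h5

/-- **One of the two families has many values.** -/
theorem many (k : ℕ) : ∃ (j : Bool) (f : Fin (2 ^ k) → (Fin (2 * k) → Bool)),
    Function.Injective fun i => phi j (wrd (f i)) := by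
  classical
  set S : Bool → Finset ℤ := fun j => Finset.univ.image fun f : Fin (2 * k) → Bool => phi j (wrd f)
  have h1 : 2 ^ (2 * k) ≤ (S false).card * (S true).card := by
    rw [← Finset.card_product]
    have h2 : (Finset.univ : Finset (Fin (2 * k) → Bool)).card = 2 ^ (2 * k) := by
      rw [Finset.card_univ]; simp
    rw [← h2]
    refine Finset.card_le_card_of_injOn (fun f => (phi false (wrd f), phi true (wrd f))) ?_ ?_
    · intro f _
      simp [S]
    · intro f _ g _ h
      exact phi_inj (congrArg Prod.fst h) (congrArg Prod.snd h)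
  obtain ⟨j, hj⟩ : ∃ j, 2 ^ k ≤ (S j).card := by
    by_contra hcon
    push Not at hcon
    have := Nat.mul_lt_mul'' (hcon false) (hcon true)
    rw [← pow_add, ← two_mul] at this
    omega
  obtain ⟨g⟩ : Nonempty (Fin (2 ^ k) ↪ S j) := by
    refine Function.Embedding.nonempty_of_card_le ?_
    rw [Fintype.card_fin, Fintype.card_coe]
    exact hj
  have h3 : ∀ i, ∃ f : Fin (2 * k) → Bool, phi j (wrd f) = (g i : ℤ) := by
    intro i
    have := (g i).2
    simp only [S, Finset.mem_image, Finset.mem_univ, true_and] at this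
    exact this
  choose f hf using h3
  refine ⟨j, f, fun a b h => g.injective (Subtype.ext ?_)⟩
  have h : phi j (wrd (f a)) = phi j (wrd (f b)) := h
  rw [← hf, ← hf, h]

end Pool.Agent.K6.H17.EX
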