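import Pool.Agent.K6.H17.RB.Seq

/-!
# The parts of the knots, next to two further strands

Strands at a place of type `g4 β`: `c b` and two further strands; at a place of type `g6 β`:
`c u b l` and two further strands.
-/

set_option autoImplicit false
set_option maxRecDepth 100000

namespace Pool.Agent.K6.H17.EX

open Pool.Agent.H835R2 Pool.Agent.H835R2.Knot Pool.Agent.Y466.FT Pool.Agent.K6.H17.RB

/-- four strands -/
def g4 (β : Bool) : Front := fr [β, !β, β, !β]
/-- six strands: `c u b l` and two further strands -/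
def g6 (β : Bool) : Front := fr [β, β, !β, !β, β, !β]

/-- the first finger, under the base strand -/
def eB (β : Bool) : Word := [.birth 1 β, .pos 2]
/-- the end: the last finger is hooked to the strand `c` -/
def hT : Word := [.pos 0, .pos 0, .death 1]
/-- the last finger is free -/
def hZ : Word := [.neg 0, .pos 0, .death 1]

theorem h_q1 (β : Bool) : chk (g6 β) (tZ β) (q1 β) = some (cC ++ eE β) := by
  cases β <;> decide +kernel

theorem h_q2 (β : Bool) : chk (g6 β) (tT β ++ cC) (q2 β) = some cC := by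
  cases β <;> decide +kernel

theorem h_q3 (β : Bool) : chk (g4 β) (eE β ++ cC) (q3 β) = some [] := by
  cases β <;> decide +kernel

theorem h_q6 (β : Bool) : chk (g4 β) (eE β ++ tT β) (q6 β) = some (eE β) := by
  cases β <;> decide +kernel

/-- releasing the first finger -/
def p3 (β : Bool) : List Sp :=
  [⟨1, false, .sd1 1⟩, ⟨0, false, .fbn 1 β⟩, ⟨0, false, .z1 1 (!β)⟩]

theorem h_p3 (β : Bool) : chk (g4 β) (eB β ++ cC) (p3 β) = some [] := by
  cases β <;> decide +kernel

/-- the end, if the last finger is free -/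
def p7 (β : Bool) : List Sp :=
  [⟨1, true, .ex (.pos 0) (.neg 2)⟩, ⟨2, true, .ex (.pos 0) (.neg 2)⟩, ⟨3, false, .sd2 1⟩,
   ⟨0, true, .sb2 0 β⟩, ⟨4, true, .s1 0⟩, ⟨2, false, .th 0⟩, ⟨1, false, .s2 1⟩,
   ⟨0, false, .fbp 0 β⟩, ⟨0, false, .sb1 0 (!β)⟩, ⟨2, false, .ex (.neg 0) (.death 2)⟩,
   ⟨1, false, .ex (.neg 0) (.death 2)⟩, ⟨0, false, .z1 1 (!β)⟩]

theorem h_p7 (β : Bool) : chk (g4 β) (eE β ++ hT) (p7 β) = some [.neg 0, .neg 0] := by
  cases β <;> decide +kernel

/-- the end without hook -/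
def p8 : List Sp := [⟨0, false, .s2 0⟩]

theorem h_p8 (β : Bool) : chk (g6 β) hZ p8 = some cC := by
  cases β <;> decide +kernel

/-- the twist is undone -/
def p10 : List Sp := [⟨1, false, .s2 0⟩, ⟨0, false, .s2 0⟩]

theorem h_p10 (β : Bool) : chk (g4 β) [.neg 0, .neg 0, .pos 0, .pos 0] p10 = some [] := by
  cases β <;> decide +kernel

/-- the top -/
def tp (β : Bool) : Word := [.birth 0 β, .birth 2 β]

/-- a twist at the bottom, or nothing -/
def aj (j : Bool) : Word := if j then [.pos 0, .pos 0] else []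

/-- the closure -/
def p9 (β : Bool) (j : Bool) : List Sp :=
  if j then [⟨1, true, .ex (.pos 0) (.birth 2 β)⟩, ⟨0, false, .fbp 0 β⟩,
    ⟨1, true, .ex (.pos 0) (.birth 2 β)⟩, ⟨0, false, .fbp 0 (!β)⟩, ⟨1, false, .z2 1 β⟩]
  else [⟨1, false, .z2 1 β⟩]

theorem h_p9 (β j : Bool) : chk Front.empty (tp β ++ aj j ++ [.death 1]) (p9 β j) =
    some (start β) := by
  cases β <;> cases j <;> decide +kernel

/-- a letter -/
def lt (x : Bool) : Word := if x then [.pos 0, .pos 0] else [.neg 1, .neg 1]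
/-- the inverse of a letter -/
def li (x : Bool) : Word := if x then [.neg 0, .neg 0] else [.pos 1, .pos 1]

/-- cancellation -/
def p11 (x : Bool) : List Sp :=
  if x then [⟨1, false, .s2 0⟩, ⟨0, false, .s2 0⟩] else [⟨1, false, .s1 1⟩, ⟨0, false, .s1 1⟩]

theorem h_p11 (β x : Bool) : chk (g4 β) (li x ++ lt x) (p11 x) = some [] := by
  cases β <;> cases x <;> decide +kernel

end Pool.Agent.K6.H17.EX
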