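import Pool.Agent.K6.H17.EX.Cnt
import Mathlib.NumberTheory.Zsqrtd.GaussianInt

/-!
# The Jones polynomials of the knots
-/

set_option autoImplicit false

namespace Pool.Agent.K6.H17.EX

open Pool.Agent.H835R2.Knot (Piece Word Front Fits run comps Move crossingSet switchAt up dn sw
  Closed IsKnot Step Isotopic IsInvariant DegreeLE circle isotopic_knot crossings)
open Pool.Agent.H838R2.SL hiding ev ev_add ev_mk ev_smul start
open Pool.Agent.H838R2.Jones
open Pool.Agent.Helper454.Wh (insD delD swpD noD OPiece OWord)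
open Pool.Agent.K6.H17.RB Pool.Agent.K6.H17.RB.Tr
open Pool.Agent.K6.H17.LC (JP phi1 phi1_JP vn vn_inv vn_deg separated_of_ne)
open LaurentPolynomial

/-- the part below the first maximum -/
def kt (β : Bool) (xs : List Bool) (j : Bool) (n : ℕ) : Word :=
  [.birth 2 β] ++ (wi xs ++ (Yn β n ++ (wd xs ++ (aj j ++ [.death 1]))))

theorem Ke_kt (β : Bool) (xs : List Bool) (j : Bool) (n : ℕ) (w : Word) :
    Ke β xs j n ++ w = start β ++ (kt β xs j n ++ w) := by
  unfold Ke kt tp start
  simp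

theorem dw_wd (β : Bool) (xs : List Bool) : dirW ((wd xs).map toO) (e4 β) = e4 β := by
  induction xs with
  | nil => rfl
  | cons x xs ih => rw [wd, List.map_append, dw_app, dw_lt, ih]

theorem dw_Y (β : Bool) (n : ℕ) : dirW ((Yn β n).map toO) (e4 β) = e4 β := by
  rw [Yn, List.map_append, dw_app, dw_BT, List.map_append, dw_app, dw_h, dw_P]

theorem dw_kt (β : Bool) (xs : List Bool) (j : Bool) (n : ℕ) :
    dirW ((kt β xs j n).map toO) (d2 β) = d2 β := by
  rw [kt, List.map_append, dw_app, dw_b, List.map_append, dw_app, dw_wi, List.map_append, dw_app,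
    dw_Y, List.map_append, dw_app, dw_wd, List.map_append, dw_app, dw_aj, dw_d]

section
variable {S : Type} [CommRing S] {e : S} (he : e * e = -1) (β : Bool)
include he

theorem op_d : opD e (-e) [.death 1] (e4 β) (ev e tb) = L e (1, 0) := by
  have h1 : ev e tb = Pool.Agent.K6.H17.EX.lin e (![tb] : Fin 1 → Tr) ![1] := by
    unfold Pool.Agent.K6.H17.EX.lin
    simp
  rw [h1, op_lin he (![tb] : Fin 1 → Tr) ty _ _ (fun _ => ![(1, 0), (0, 0)]) (k_d β)]
  unfold L
  congr 1
  funext k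
  fin_cases k <;> simp

theorem op_b (v : ℤ × ℤ) : opD e (-e) [.birth 2 β] (d2 β) (L e v) = (v.1 : S) • ev e tb := by
  unfold L
  rw [op_lin he ty (![tb] : Fin 1 → Tr) _ _ (![![(1, 0)], ![(0, 0)]]) (k_b β)]
  unfold Pool.Agent.K6.H17.EX.lin
  simp [Fin.sum_univ_two]

/-- **The operator of the knots.** -/
theorem op_kt (xs : List Bool) (j : Bool) (n : ℕ) :
    opD e (-e) (kt β xs j n) (d2 β) (ev e tb) =
      (((1 - 4 ^ (n + 1) * (1 - 2 * phi j xs) : ℤ)) : S) • ev e tb := by
  rw [kt, op_append, dw_b, op_append, dw_wi, op_append, dw_Y, op_append, dw_wd, op_append, dw_aj,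
    op_d he, op_aj he, op_wd he, op_Y he, op_wi he, op_b he, ← value]
  congr 4

end

/-! ### the Gaussian integers -/

noncomputable section

/-- the square root of `-1` -/
def gi : GaussianInt := ⟨0, 1⟩

theorem gi_sq : gi * gi = -1 := by
  ext <;> simp [gi]

/-- the unit -/
def gu : GaussianIntˣ := ⟨gi, -gi, by rw [mul_neg, gi_sq, neg_neg], by rw [neg_mul, gi_sq, neg_neg]⟩

/-- the substitution -/
def phiG : LaurentPolynomial ℤ →+* GaussianInt :=
  LaurentPolynomial.eval₂ (Int.castRingHom GaussianInt) gu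

theorem phiG_T : phiG (T 1) = gi := by
  unfold phiG
  rw [eval₂_T]
  simp [gu]

theorem phiG_T' : phiG (T (-1)) = -gi := by
  unfold phiG
  rw [eval₂_T]
  simp [gu]

/-- the state of two spins -/
def σ1 : ℕ → Bool := insD 0 true (fun _ => false)

/-- the quotient of the Jones polynomials -/
def qq (β : Bool) (xs : List Bool) (j : Bool) (n : ℕ) : LaurentPolynomial ℤ :=
  opD (T 1) (T (-1)) (kt β xs j n) (d2 β) (Dl (T 1) 0 1) σ1

theorem phiG_qq (β : Bool) (xs : List Bool) (j : Bool) (n : ℕ) :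
    phiG (qq β xs j n) = ((1 - 4 ^ (n + 1) * (1 - 2 * phi j xs) : ℤ) : GaussianInt) := by
  have h := congrFun (Pool.Agent.K6.H17.LC.opD_map (s := (T 1 : LaurentPolynomial ℤ))
    (s' := T (-1)) phiG (kt β xs j n) (d2 β) (Dl (T 1) 0 1)) σ1
  have e1 : (fun σ : ℕ → Bool => phiG ((Dl (T 1 : LaurentPolynomial ℤ) 0 1) σ)) = ev gi tb := by
    funext σ
    have h1 : ev gi tb σ = Dl gi 0 (ev gi (.leaf 1 0)) σ := ev_dG gi_sq 0 _ σ
    have h2 : ev gi (.leaf 1 0) = (1 : F GaussianInt) := by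
      funext τ
      simp [Tr.ev]
    rw [h1, h2, Dl_apply, Dl_apply, ← phiG_T]
    split_ifs <;> simp
  rw [e1, phiG_T, phiG_T'] at h
  unfold qq
  rw [← h, op_kt gi_sq, Pi.smul_apply, smul_eq_mul]
  have h3 : ev gi tb σ1 = 1 := by
    have h1 : ev gi tb σ1 = Dl gi 0 (ev gi (.leaf 1 0)) σ1 := ev_dG gi_sq 0 _ σ1
    rw [h1, Dl_apply]
    simp [σ1, insD, Tr.ev]
  rw [h3, mul_one]

theorem hT1 : (T 1 : LaurentPolynomial ℤ) * T (-1) = 1 := Pool.Agent.K6.H17.LC.hT

/-- the factor of the lower part -/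
def cf (β : Bool) (w : Word) : LaurentPolynomial ℤ := opD (T 1) (T (-1)) w (d2 β) 1 σ1

theorem op_two (β : Bool) {w : Word} (hw : IsKnot (start β ++ w)) :
    opD (T 1) (T (-1)) w (d2 β) 1 = cf β w • Dl (T 1 : LaurentPolynomial ℤ) 0 1 := by
  have hfit : Fits (start β ++ w) Front.empty := hw.1.1
  have hrun : (run (start β ++ w) Front.empty).n = 0 := hw.1.2
  rw [fits_append] at hfit
  rw [Pool.Agent.H835R2.Knot.run_append] at hrun
  have hP := Pr.op (s := (T 1 : LaurentPolynomial ℤ)) (s' := T (-1)) hT1 w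
    (run (start β) Front.empty) hfit.2 hrun
  have hd : (run (start β) Front.empty).dir = d2 β := by
    rw [dir_run]; exact dw_start β
  have hn : (run (start β) Front.empty).n = 2 := rfl
  rw [hd, hn] at hP
  exact hP.two

theorem opA (a w : Word) (d : ℕ → Bool) (f : F (LaurentPolynomial ℤ)) :
    opD (T 1) (T (-1)) (a ++ w) d f =
    opD (T 1) (T (-1)) a d (opD (T 1) (T (-1)) w (dirW (a.map toO) d) f) := by
  show opW _ _ ((a ++ w).map toO) d f = opW _ _ (a.map toO) d
    (opW _ _ (w.map toO) (dirW (a.map toO) d) f)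
  rw [List.map_append, opW_append]

theorem JP_start (β : Bool) {w : Word} (hw : IsKnot (start β ++ w)) :
    JP (start β ++ w) = cf β w * (-(T 1 + T (-1))) := by
  have e : JP (start β ++ w) = Bl (T (-1) : LaurentPolynomial ℤ) 0
      (opD (T 1) (T (-1)) w (d2 β) 1) (fun _ => false) := by
    show opD (T 1) (T (-1)) (start β ++ w) (fun _ => true) 1 (fun _ => false) = _
    have h := dw_start β
    rw [opA]
    show Bl _ 0 (opD (T 1) (T (-1)) w (dirW ((start β).map toO) d0) 1) _ = _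
    rw [h]
  rw [e, op_two β hw, map_smul, circ]
  simp

theorem IsK_circ (β : Bool) : IsKnot (start β ++ [.death 0]) := by cases β <;> decide +kernel

/-- **The Jones polynomial of the knots.** -/
theorem JP_Ke (β : Bool) (xs : List Bool) (j : Bool) (n : ℕ) {w : Word}
    (hw : IsKnot (start β ++ w)) :
    JP (Ke β xs j n ++ w) = cf β w * (qq β xs j n * (-(T 1 + T (-1)))) := by
  have h1 := isKnot_Ke β xs j n hw
  rw [Ke_kt] at h1 ⊢
  rw [JP_start β h1]
  have h2 : cf β (kt β xs j n ++ w) = cf β w * qq β xs j n := by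
    have h3 : cf β (kt β xs j n ++ w) = opD (T 1) (T (-1)) (kt β xs j n ++ w) (d2 β) 1 σ1 := rfl
    rw [h3, opA, dw_kt, op_two β hw, map_smul, Pi.smul_apply, smul_eq_mul]
    rfl
  rw [h2]
  ring

end

end Pool.Agent.K6.H17.EX
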