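import Pool.Agent.K6.H17.EX.Fin

/-!
# Exponentially many knots
-/

set_option autoImplicit false

namespace Pool.Agent.K6.H17.EX

open Pool.Agent.H835R2.Knot (Piece Word Front Fits run comps Move crossingSet switchAt up dn sw
  Closed IsKnot Step Isotopic IsInvariant DegreeLE circle isotopic_knot crossings)
open Pool.Agent.H838R2.SL hiding ev ev_add ev_mk ev_smul start
open Pool.Agent.H838R2.Jones
open Pool.Agent.K6.H17.RB
open Pool.Agent.K6.H17.LC (JP phi1 phi1_JP vn vn_inv vn_deg separated_of_ne)
open LaurentPolynomial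

theorem vn0 {D : Word} (hD : IsKnot D) : vn 0 D = -2 := by
  have h1 := const0 (vn_inv 0) (vn_deg 0) hD
  have h2 : vn 0 circle = -2 := by
    show PowerSeries.coeff 0 (Bl sx' 0 (Dl sx 0 1) (fun _ => false)) = -2
    rw [circ]
    simp [sx, sx']
    norm_num
  exact h1.trans h2

theorem cf_ne (β : Bool) {w : Word} (hw : IsKnot (start β ++ w)) : cf β w ≠ 0 := by
  intro h
  have h1 := JP_start β hw
  rw [h, zero_mul] at h1
  have h2 := phi1_JP (start β ++ w)
  rw [h1, map_zero] at h2
  have h3 := vn0 hw
  unfold vn at h3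
  rw [← h2, map_zero] at h3
  norm_num at h3

theorem JP_ne (β : Bool) {xs ys : List Bool} {j : Bool} (h : phi j xs ≠ phi j ys) (n : ℕ) {w : Word}
    (hw : IsKnot (start β ++ w)) : JP (Ke β xs j n ++ w) ≠ JP (Ke β ys j n ++ w) := by
  intro he
  rw [JP_Ke β xs j n hw, JP_Ke β ys j n hw] at he
  have h1 := mul_left_cancel₀ (cf_ne β hw) he
  have h2 : (-(T 1 + T (-1)) : LaurentPolynomial ℤ) ≠ 0 := by
    intro h0
    have h3 := vn0 (IsK_circ β)
    have h4 := JP_start β (IsK_circ β)
    rw [h0, mul_zero] at h4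
    have h5 := phi1_JP (start β ++ [.death 0])
    rw [h4, map_zero] at h5
    unfold vn at h3
    rw [← h5, map_zero] at h3
    norm_num at h3
  have h3 := mul_right_cancel₀ h2 h1
  have h4 := congrArg phiG h3
  rw [phiG_qq, phiG_qq] at h4
  have h5 : (1 - 4 ^ (n + 1) * (1 - 2 * phi j xs) : ℤ) = 1 - 4 ^ (n + 1) * (1 - 2 * phi j ys) :=
    Int.cast_injective h4
  have h6 : (4 : ℤ) ^ (n + 1) ≠ 0 := pow_ne_zero _ (by norm_num)
  have h7 : (4 : ℤ) ^ (n + 1) * (phi j xs - phi j ys) = 0 := by linarith
  rcases mul_eq_zero.1 h7 with h8 | h8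
  · exact h6 h8
  · exact h (sub_eq_zero.1 h8)

theorem length_Ke (β : Bool) (xs : List Bool) (j : Bool) (n : ℕ) :
    (Ke β xs j n).length ≤ 4 * xs.length + 7 * n + 12 := by
  unfold Ke Yn
  simp only [List.length_append]
  have h1 : (tp β).length = 2 := rfl
  have h2 : (eB β).length = 2 := rfl
  have h3 : hT.length = 3 := rfl
  have h4 : ([.pos 0, .pos 0] : Word).length = 2 := rfl
  have h5 : (aj j).length ≤ 2 := by cases j <;> decide
  have h6 : ([.death 1] : Word).length = 1 := rfl
  have h7 : (tn β n).length = 7 * n := by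
    induction n with
    | zero => rfl
    | succ n ih =>
      rw [tn, List.length_append, ih]
      have : (tT β).length = 7 := rfl
      rw [this]; ring
  have h8 : (wi xs).length = 2 * xs.length := by
    induction xs with
    | nil => rfl
    | cons x xs ih =>
      rw [wi, List.length_append, ih, List.length_cons]
      have : (li x).length = 2 := by cases x <;> rfl
      rw [this]; ring
  have h9 : ∀ xs : List Bool, (wd xs).length = 2 * xs.length := by
    intro xs
    induction xs with
    | nil => rfl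
    | cons x xs ih =>
      rw [wd, List.length_append, ih, List.length_cons]
      have : (lt x).length = 2 := by cases x <;> rfl
      rw [this]; ring
  rw [h1, h2, h3, h4, h6, h7, h8, h9]
  omega

/-- **Exponentially many knots.** -/
theorem fam {D : Word} (hD : IsKnot D) (k n : ℕ) : ∃ E : Fin (2 ^ k) → Word,
    (∀ i, IsKnot (E i) ∧ crossings (E i) ≤ crossings D + (8 * k + 5 * n + 11) ∧
      ∀ (A : Type) [AddCommGroup A] (v : Word → A), IsInvariant v → DegreeLE (n + 1) v →
        v (E i) = v D) ∧
    ∀ i i', i ≠ i' → ∃ u : Word → ℚ, IsInvariant u ∧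
      DegreeLE (8 * (D.length + (8 * k + 7 * n + 15))) u ∧ u (E i) ≠ u (E i') := by
  obtain ⟨β, w, rfl⟩ := exists_start hD
  obtain ⟨j, f, hf⟩ := many k
  have hlen : ∀ i, (wrd (f i)).length = 2 * k + 1 := fun i => len_wrd (f i)
  refine ⟨fun i => Ke β (wrd (f i)) j n ++ w, fun i => ⟨isKnot_Ke β _ j n hD, ?_, ?_⟩, ?_⟩
  · refine (crossings_Ke β (wrd (f i)) j n w).trans ?_
    rw [hlen]
    omega
  · intro A _ v hv hn
    exact Ke_triv hv hn β _ j hD
  · intro i i' hi
    have h1 : phi j (wrd (f i)) ≠ phi j (wrd (f i')) := fun h => hi (hf h)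
    have hl : ∀ i, (Ke β (wrd (f i)) j n ++ w).length ≤
        (start β ++ w).length + (8 * k + 7 * n + 15) := by
      intro i
      have h2 := length_Ke β (wrd (f i)) j n
      rw [hlen] at h2
      rw [List.length_append, List.length_append]
      have h3 : (start β).length = 1 := rfl
      omega
    exact separated_of_ne (JP_ne β h1 n hD) (hl i) (hl i')

end Pool.Agent.K6.H17.EX
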