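import Pool.Agent.K6.H17.EX.Data

/-!
# The knots, and the invariants of small order
-/

set_option autoImplicit false

namespace Pool.Agent.K6.H17.EX

open Pool.Agent.H835R2 Pool.Agent.H835R2.Knot Pool.Agent.H835R2.Flat Pool.Agent.Y466.FT
open Pool.Agent.K6.H17.RB

/-! ### the strands -/

theorem fr_B (β : Bool) : Eqv (g6 β) (run (eB β) (g4 β)) := by cases β <;> decide +kernel
theorem ft_B (β : Bool) : Fits (eB β) (g4 β) := by cases β <;> decide +kernel
theorem fr_E (β : Bool) : Eqv (g6 β) (run (eE β) (g4 β)) := by cases β <;> decide +kernel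
theorem ft_E (β : Bool) : Fits (eE β) (g4 β) := by cases β <;> decide +kernel
theorem fr_T (β : Bool) : Eqv (g6 β) (run (tT β) (g6 β)) := by cases β <;> decide +kernel
theorem ft_T (β : Bool) : Fits (tT β) (g6 β) := by cases β <;> decide +kernel
theorem fr_l (β x : Bool) : Eqv (g4 β) (run (li x) (g4 β)) := by
  cases β <;> cases x <;> decide +kernel
theorem ft_l (β x : Bool) : Fits (li x) (g4 β) := by cases β <;> cases x <;> decide +kernel
theorem fr_tp (β : Bool) : Eqv (g4 β) (run (tp β) Front.empty) := by cases β <;> decide +kernel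

/-- the word of a list of letters -/
def wd : List Bool → Word
  | [] => []
  | x :: xs => lt x ++ wd xs
/-- the inverse word -/
def wi : List Bool → Word
  | [] => []
  | x :: xs => wi xs ++ li x

theorem fr_wi (β : Bool) (xs : List Bool) : Eqv (g4 β) (run (tp β ++ wi xs) Front.empty) := by
  induction xs with
  | nil => simpa [wi] using fr_tp β
  | cons x xs ih =>
    rw [wi, ← List.append_assoc, Knot.run_append]
    exact (fr_l β x).trans (ih.run (li x) (ft_l β x))

section
variable {β : Bool} {x : Word} (hx : Eqv (g4 β) (run x Front.empty))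
include hx

theorem fx_B : Eqv (g6 β) (run (x ++ eB β) Front.empty) := by
  rw [Knot.run_append]
  exact (fr_B β).trans (hx.run _ (ft_B β))

theorem fx_E : Eqv (g6 β) (run (x ++ eE β) Front.empty) := by
  rw [Knot.run_append]
  exact (fr_E β).trans (hx.run _ (ft_E β))

theorem fx_tn (n : ℕ) : Eqv (g6 β) (run (x ++ eB β ++ tn β n) Front.empty) := by
  induction n with
  | zero => simpa [tn] using fx_B hx
  | succ n ih =>
    rw [tn, ← List.append_assoc, Knot.run_append]
    exact (fr_T β).trans (ih.run _ (ft_T β))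

/-! ### the isotopies -/

variable {A : Type} {φ : Word → A} (h : CI φ)
include h

omit hx in
theorem s1 {y : Word} (hy : Eqv (g6 β) (run y Front.empty)) (w : Word) :
    φ (y ++ (tZ β ++ w)) = φ (y ++ cC ++ (eE β ++ w)) := by
  have := h.chk (q1 β) (EX.h_q1 β) hy w
  simpa using this

omit hx in
theorem s8 {y : Word} (hy : Eqv (g6 β) (run y Front.empty)) (w : Word) :
    φ (y ++ (hZ ++ w)) = φ (y ++ cC ++ w) := by
  have := h.chk p8 (h_p8 β) hy w
  simpa using this

theorem s6 (w : Word) : φ (x ++ eE β ++ (tT β ++ w)) = φ (x ++ eE β ++ w) := by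
  have := h.chk (q6 β) (EX.h_q6 β) hx w
  simpa using this

theorem s3 (w : Word) : φ (x ++ eE β ++ cC ++ w) = φ (x ++ w) := by
  have := h.chk (q3 β) (EX.h_q3 β) hx w
  simpa using this

theorem s7 (w : Word) : φ (x ++ eE β ++ (hT ++ w)) = φ (x ++ ([.neg 0, .neg 0] ++ w)) := by
  have := h.chk (p7 β) (h_p7 β) hx w
  simpa using this

theorem s10 (w : Word) : φ (x ++ ([.neg 0, .neg 0] ++ ([.pos 0, .pos 0] ++ w))) = φ (x ++ w) := by
  have := h.chk p10 (h_p10 β) hx w
  simpa using this

theorem s24 (n : ℕ) (w : Word) : φ (x ++ eB β ++ tn β n ++ cC ++ w) = φ (x ++ w) := by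
  induction n with
  | zero =>
    have := h.chk (p3 β) (h_p3 β) hx w
    simpa [tn] using this
  | succ n ih =>
    have := h.chk (q2 β) (EX.h_q2 β) (fx_tn hx n) w
    rw [← ih, ← this, tn]
    simp only [List.append_assoc]

theorem sZ (n : ℕ) (w : Word) :
    φ (x ++ eB β ++ tn β n ++ (tZ β ++ w)) = φ (x ++ eE β ++ w) := by
  rw [s1 h (fx_tn hx n), s24 hx h, List.append_assoc]

theorem sE (w : Word) : φ (x ++ eE β ++ (tZ β ++ w)) = φ (x ++ eE β ++ w) := by
  rw [s1 h (fx_E hx), s3 hx h, List.append_assoc]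

theorem sF (n : ℕ) (w : Word) : φ (x ++ eB β ++ tn β n ++ (hZ ++ w)) = φ (x ++ w) := by
  rw [s8 h (fx_tn hx n), s24 hx h]

theorem sEF (w : Word) : φ (x ++ eE β ++ (hZ ++ w)) = φ (x ++ w) := by
  rw [s8 h (fx_E hx), s3 hx h]

theorem sT (n : ℕ) (w : Word) : φ (x ++ eE β ++ (tn β n ++ w)) = φ (x ++ eE β ++ w) := by
  induction n generalizing w with
  | zero => rfl
  | succ n ih =>
    have e : tn β (n + 1) ++ w = tn β n ++ (tT β ++ w) := by rw [tn, List.append_assoc]
    rw [e, ih, s6 hx h]

end

/-- **The tangle.** -/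
def Yn (β : Bool) (n : ℕ) : Word := eB β ++ tn β n ++ (hT ++ [.pos 0, .pos 0])

section
variable {β : Bool} {x : Word} (hx : Eqv (g4 β) (run x Front.empty))
variable {A : Type} [AddCommGroup A]

/-- the iterated difference -/
def ee (β : Bool) (x : Word) (φ : Word → A) : ℕ → Word → A
  | 0 => del (x ++ eB β) (x ++ eE β) φ
  | n + 1 => del (tT β) (tZ β) (ee β x φ n)

include hx

theorem ee_eq {φ : Word → A} (h : CI φ) (n : ℕ) (w : Word) :
    ee β x φ n w = φ (x ++ eB β ++ tn β n ++ w) - φ (x ++ eE β ++ w) := by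
  induction n generalizing w with
  | zero =>
    show φ (x ++ eB β ++ w) - φ (x ++ eE β ++ w) = _
    simp [tn]
  | succ n ih =>
    show ee β x φ n (tT β ++ w) - ee β x φ n (tZ β ++ w) = _
    rw [ih, ih, s6 hx h, sZ hx h, sE hx h, tn]
    simp only [List.append_assoc]
    abel

theorem ee_fin {φ : Word → A} (h : CI φ) (n : ℕ) (w : Word) :
    del hT hZ (ee β x φ n) ([.pos 0, .pos 0] ++ w) = φ (x ++ (Yn β n ++ w)) - φ (x ++ w) := by
  show ee β x φ n (hT ++ ([.pos 0, .pos 0] ++ w)) - ee β x φ n (hZ ++ ([.pos 0, .pos 0] ++ w)) = _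
  rw [ee_eq hx h, ee_eq hx h, sF hx h, sEF hx h, s7 hx h, s10 hx h]
  unfold Yn
  simp only [List.append_assoc]
  abel

end

theorem same_B (β : Bool) : Same (eB β) (eE β) := same_of (by cases β <;> decide +kernel)
theorem same_h : Same hT hZ := same_of (by decide +kernel)

theorem Vd.ee {A : Type} [AddCommGroup A] (β : Bool) (x : Word) {φ : Word → A} (n r : ℕ)
    (h : Vd (n + r + 1) φ) : Vd r (ee β x φ n) := by
  induction n generalizing r with
  | zero => exact Vd.del (List.rel_append (Same.refl x) (same_B β)) (by simpa using h)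
  | succ n ih =>
    exact Vd.del (same_t β) (ih (r + 1) (by rwa [show n + (r + 1) + 1 = n + 1 + r + 1 by ring]))

/-- **Invariants of order at most `n + 1`** do not see the tangle. -/
theorem ext_Yn {A : Type} [AddCommGroup A] {β : Bool} {x : Word}
    (hx : Eqv (g4 β) (run x Front.empty)) {v : Word → A} (hv : IsInvariant v) {n : ℕ}
    (hn : DegreeLE (n + 1) v) (w : Word) : ext v (x ++ (Yn β n ++ w)) = ext v (x ++ w) := by
  have h1 : Vd (n + 1 + 1) (ext v) := fun D hD hD' => malt_ext hn D hD hD'
  have h2 : Vd 0 (RB.del hT hZ (EX.ee β x (ext v) n)) := Vd.del same_h (EX.Vd.ee β x n 1 h1)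
  have h3 := h2 ((([.pos 0, .pos 0] : Word) ++ w).map fun p => (p, false)) (by simp)
    (by unfold nm; simp)
  rw [malt_plain _ (by unfold nm; simp)] at h3
  have e : pl ((([.pos 0, .pos 0] : Word) ++ w).map fun p => (p, false)) = [.pos 0, .pos 0] ++ w := by
    unfold pl
    rw [List.map_map]
    exact List.map_id _
  rw [e, ee_fin hx (CI_ext hv)] at h3
  exact sub_eq_zero.1 h3

theorem same_tn (β : Bool) (n : ℕ) : Same (tn β n) (tn β n) := Same.refl _

theorem isKnot_Yn {β : Bool} {x : Word} (hx : Eqv (g4 β) (run x Front.empty)) (n : ℕ) {w : Word}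
    (hw : IsKnot (x ++ w)) : IsKnot (x ++ (Yn β n ++ w)) := by
  have h1 : IsKnot (x ++ eE β ++ (tn β n ++ (hT ++ ([.pos 0, .pos 0] ++ w)))) := by
    have e1 := sT hx CI_knot n (hT ++ ([.pos 0, .pos 0] ++ w))
    have e2 := s7 hx CI_knot ([.pos 0, .pos 0] ++ w)
    have e3 := s10 hx CI_knot w
    exact ((e1.trans e2).trans e3).symm ▸ hw
  have h2 : Same (x ++ (Yn β n ++ w)) (x ++ eE β ++ (tn β n ++ (hT ++ ([.pos 0, .pos 0] ++ w)))) := by
    unfold Yn
    simp only [List.append_assoc]
    exact List.rel_append (Same.refl x) (List.rel_append (same_B β) (Same.refl _))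
  exact (Same.knot h2).1 h1

/-! ### the knots -/

/-- **The upper part of the knots.** -/
def Ke (β : Bool) (xs : List Bool) (j : Bool) (n : ℕ) : Word :=
  tp β ++ wi xs ++ (Yn β n ++ (wd xs ++ (aj j ++ [.death 1])))

section
variable {A : Type} {φ : Word → A} (h : CI φ)
include h

theorem s11 (β : Bool) (xs : List Bool) (w : Word) :
    φ (tp β ++ wi xs ++ (wd xs ++ w)) = φ (tp β ++ w) := by
  induction xs with
  | nil => simp [wi, wd]
  | cons x xs ih =>
    have := h.chk (p11 x) (h_p11 β x) (fr_wi β xs) (wd xs ++ w)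
    rw [← ih, wi, wd]
    simpa using this

theorem s9 (β j : Bool) (w : Word) : φ (tp β ++ (aj j ++ ([.death 1] ++ w))) = φ (start β ++ w) := by
  have := h.chk (p9 β j) (h_p9 β j) (x := []) (Eqv.rfl' _) w
  simpa using this

theorem s12 (β : Bool) (xs : List Bool) (j : Bool) (w : Word) :
    φ (tp β ++ wi xs ++ (wd xs ++ (aj j ++ ([.death 1] ++ w)))) = φ (start β ++ w) := by
  rw [s11 h, s9 h]

end

theorem Ke_app (β : Bool) (xs : List Bool) (j : Bool) (n : ℕ) (w : Word) : Ke β xs j n ++ w =
    tp β ++ wi xs ++ (Yn β n ++ (wd xs ++ (aj j ++ ([.death 1] ++ w)))) := by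
  unfold Ke
  simp

theorem isKnot_Ke (β : Bool) (xs : List Bool) (j : Bool) (n : ℕ) {w : Word}
    (hw : IsKnot (start β ++ w)) : IsKnot (Ke β xs j n ++ w) := by
  rw [Ke_app]
  refine isKnot_Yn (fr_wi β xs) n ?_
  have := s12 CI_knot β xs j w
  exact this.symm ▸ hw

theorem Ke_triv {A : Type} [AddCommGroup A] {v : Word → A} (hv : IsInvariant v) {n : ℕ}
    (hn : DegreeLE (n + 1) v) (β : Bool) (xs : List Bool) (j : Bool) {w : Word}
    (hw : IsKnot (start β ++ w)) : v (Ke β xs j n ++ w) = v (start β ++ w) := by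
  have h1 := ext_Yn (fr_wi β xs) hv hn (wd xs ++ (aj j ++ ([.death 1] ++ w)))
  rw [← Ke_app, s12 (CI_ext hv)] at h1
  unfold ext at h1
  rwa [if_pos (isKnot_Ke β xs j n hw), if_pos hw] at h1

theorem crossings_Ke (β : Bool) (xs : List Bool) (j : Bool) (n : ℕ) (w : Word) :
    crossings (Ke β xs j n ++ w) ≤ crossings (start β ++ w) + (4 * xs.length + 5 * n + 7) := by
  rw [Ke_app]
  unfold Yn crossings
  simp only [List.countP_append]
  have h0 : (start β).countP Piece.isCrossing = 0 := by cases β <;> decide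
  have h1 : (tp β).countP Piece.isCrossing = 0 := by cases β <;> decide
  have h2 : (eB β).countP Piece.isCrossing = 1 := by cases β <;> decide
  have h3 : hT.countP Piece.isCrossing = 2 := by decide
  have h4 : ([.pos 0, .pos 0] : Word).countP Piece.isCrossing = 2 := by decide
  have h5 : (aj j).countP Piece.isCrossing ≤ 2 := by cases j <;> decide
  have h6 : ([.death 1] : Word).countP Piece.isCrossing = 0 := by decide
  have h7 : (tn β n).countP Piece.isCrossing = 5 * n := by
    induction n with
    | zero => rfl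
    | succ n ih =>
      rw [tn, List.countP_append, ih]
      have : (tT β).countP Piece.isCrossing = 5 := by cases β <;> decide
      rw [this]; ring
  have h8 : (wi xs).countP Piece.isCrossing = 2 * xs.length := by
    induction xs with
    | nil => rfl
    | cons x xs ih =>
      rw [wi, List.countP_append, ih, List.length_cons]
      have : (li x).countP Piece.isCrossing = 2 := by cases x <;> decide
      rw [this]; ring
  have h9 : (wd xs).countP Piece.isCrossing = 2 * xs.length := by
    induction xs with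
    | nil => rfl
    | cons x xs ih =>
      rw [wd, List.countP_append, List.length_cons]
      have : (lt x).countP Piece.isCrossing = 2 := by cases x <;> decide
      rw [this]
      have ih' := ih (by
        simp only [wi, List.countP_append] at h8
        have : (li x).countP Piece.isCrossing = 2 := by cases x <;> decide
        rw [this, List.length_cons] at h8
        omega)
      rw [ih']; ring
  rw [h0, h1, h2, h3, h4, h6, h7, h8, h9]
  omega

end Pool.Agent.K6.H17.EX
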