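import Pool.Agent.K6.H17.EX.TreeG
import Pool.Agent.K6.H17.EX.Triv

/-!
# The operators of the parts at a square root of `-1`
-/

set_option autoImplicit false
set_option maxRecDepth 100000

namespace Pool.Agent.K6.H17.EX

open Pool.Agent.H835R2.Knot (Piece Word)
open Pool.Agent.H838R2.SL hiding ev ev_add ev_mk ev_smul
open Pool.Agent.H838R2.Jones
open Pool.Agent.Helper454.Wh (insD delD swpD noD OPiece OWord)
open Pool.Agent.K6.H17.RB Pool.Agent.K6.H17.RB.Tr
open Finset

/-! ### linear combinations -/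

/-- a linear combination of trees -/
def cb {n : ℕ} (b : Fin n → Tr) (c : Fin n → ℤ × ℤ) : Tr :=
  (List.ofFn fun k => sm (c k).1 (c k).2 (b k)).foldr add .z

section
variable {S : Type} [CommRing S] {e : S}

/-- a linear combination of functions -/
def lin (e : S) {n : ℕ} (b : Fin n → Tr) (t : Fin n → S) : F S := ∑ k, t k • ev e (b k)

theorem ev_cb (he : e * e = -1) {n : ℕ} (b : Fin n → Tr) (c : Fin n → ℤ × ℤ) :
    ev e (cb b c) = lin e b fun k => ((c k).1 : S) + ((c k).2 : S) * e := by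
  unfold cb lin
  have key : ∀ l : List Tr, ev e (l.foldr add .z) = (l.map (ev e)).sum := by
    intro l
    induction l with
    | nil => rfl
    | cons a l ih => rw [List.foldr_cons, ev_add' he, ih, List.map_cons, List.sum_cons]
  rw [key, List.map_ofFn, List.sum_ofFn]
  refine sum_congr rfl fun k _ => ?_
  exact ev_sm' he _ _ _

theorem op_lin (he : e * e = -1) {m n : ℕ} (b : Fin m → Tr) (b' : Fin n → Tr) (w : Word)
    (d : ℕ → Bool) (C : Fin m → Fin n → ℤ × ℤ)
    (h : ∀ k, eqT (opG w d (b k)) (cb b' (C k)) = true) (t : Fin m → S) :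
    opD e (-e) w d (lin e b t) =
      lin e b' fun j => ∑ k, t k * (((C k j).1 : S) + ((C k j).2 : S) * e) := by
  unfold lin
  rw [map_sum]
  have h1 : ∀ k, opD e (-e) w d (t k • ev e (b k)) =
      ∑ j, (t k * (((C k j).1 : S) + ((C k j).2 : S) * e)) • ev e (b' j) := by
    intro k
    rw [map_smul, ← ev_opG he, ev_eqT he (h k), ev_cb he]
    unfold lin
    rw [smul_sum]
    exact sum_congr rfl fun j _ => smul_smul _ _ _
  rw [sum_congr rfl fun k _ => h1 k, sum_comm]
  exact sum_congr rfl fun j _ => (sum_smul).symm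

end

/-! ### the trees -/

/-- the minimum -/
def tb : Tr := dG 0 (.leaf 1 0)
/-- the functions on four strands -/
def ty : Fin 2 → Tr := ![dG 1 tb, dG 0 tb]
/-- the functions on six strands -/
def tm : Fin 5 → Tr := ![dG 0 (dG 0 tb), dG 0 (dG 1 tb), dG 1 (dG 0 tb), dG 1 (dG 1 tb),
  dG 2 (dG 1 tb)]

/-- the directions of four strands -/
def e4 (β : Bool) : ℕ → Bool := fun p => [β, !β, β, !β].getD p true
/-- the directions of six strands -/
def e6 (β : Bool) : ℕ → Bool := fun p => [β, β, !β, !β, β, !β].getD p true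

theorem dw_B (β : Bool) : dirW ((eB β).map toO) (e4 β) = e6 β := by
  funext p
  rcases p with _ | _ | _ | _ | _ | _ | p <;> cases β <;> rfl
theorem dw_E (β : Bool) : dirW ((eE β).map toO) (e4 β) = e6 β := by
  funext p
  rcases p with _ | _ | _ | _ | _ | _ | p <;> cases β <;> rfl
theorem dw_T (β : Bool) : dirW ((tT β).map toO) (e6 β) = e6 β := by
  funext p
  rcases p with _ | _ | _ | _ | _ | _ | p <;> cases β <;> rfl
theorem dw_h (β : Bool) : dirW (hT.map toO) (e6 β) = e4 β := by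
  funext p
  rcases p with _ | _ | _ | _ | _ | _ | p <;> cases β <;> rfl
theorem dw_P (β : Bool) : dirW (([.pos 0, .pos 0] : Word).map toO) (e4 β) = e4 β := by
  funext p
  rcases p with _ | _ | _ | _ | _ | _ | p <;> cases β <;> rfl
theorem dw_lt (β x : Bool) : dirW ((lt x).map toO) (e4 β) = e4 β := by
  funext p
  rcases p with _ | _ | _ | _ | _ | _ | p <;> cases β <;> cases x <;> rfl
theorem dw_li (β x : Bool) : dirW ((li x).map toO) (e4 β) = e4 β := by
  funext p
  rcases p with _ | _ | _ | _ | _ | _ | p <;> cases β <;> cases x <;> rfl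
theorem dw_aj (β x : Bool) : dirW ((aj x).map toO) (e4 β) = e4 β := by
  funext p
  rcases p with _ | _ | _ | _ | _ | _ | p <;> cases β <;> cases x <;> rfl
theorem dw_b (β : Bool) : dirW (([.birth 2 β] : Word).map toO) (d2 β) = e4 β := by
  funext p
  rcases p with _ | _ | _ | _ | _ | _ | p <;> cases β <;> rfl
theorem dw_d (β : Bool) : dirW (([.death 1] : Word).map toO) (e4 β) = d2 β := by
  funext p
  rcases p with _ | _ | _ | _ | _ | _ | p <;> cases β <;> rfl

/-- a finger -/
def cT : Fin 5 → Fin 5 → ℤ × ℤ :=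
  ![![(4, 0), (0, 0), (0, -3), (0, 0), (0, 0)], ![(0, 0), (2, 0), (-1, 0), (0, -3), (2, 0)],
    ![(0, 0), (0, 0), (1, 0), (0, 0), (0, 0)], ![(0, 0), (0, 0), (0, 0), (1, 0), (0, 0)],
    ![(0, 0), (0, 0), (0, 0), (0, -3), (4, 0)]]
/-- the first finger -/
def cB : Fin 5 → Fin 2 → ℤ × ℤ :=
  ![![(0, 0), (0, -1)], ![(0, -1), (1, 0)], ![(0, 0), (1, 0)], ![(1, 0), (0, 0)],
    ![(0, -1), (0, 0)]]
/-- the end -/
def ch : Fin 2 → Fin 5 → ℤ × ℤ :=
  ![![(0, 0), (0, -2), (0, 0), (-1, 0), (0, 0)], ![(0, -2), (0, 0), (-1, 0), (0, 0), (0, 0)]]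
/-- the letters -/
def cl (x : Bool) : Fin 2 → Fin 2 → ℤ × ℤ :=
  if x then ![![(1, 0), (0, 2)], ![(0, 0), (1, 0)]] else ![![(1, 0), (0, 0)], ![(0, -2), (1, 0)]]
/-- the inverses of the letters -/
def ci (x : Bool) : Fin 2 → Fin 2 → ℤ × ℤ :=
  if x then ![![(1, 0), (0, -2)], ![(0, 0), (1, 0)]] else ![![(1, 0), (0, 0)], ![(0, 2), (1, 0)]]

theorem k_T (β : Bool) (k : Fin 5) : eqT (opG (tT β) (e6 β) (tm k)) (cb tm (cT k)) = true := by
  revert β k
  decide +kernel
theorem k_B (β : Bool) (k : Fin 5) : eqT (opG (eB β) (e4 β) (tm k)) (cb ty (cB k)) = true := by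
  revert β k
  decide +kernel
theorem k_h (β : Bool) (k : Fin 2) : eqT (opG hT (e6 β) (ty k)) (cb tm (ch k)) = true := by
  revert β k
  decide +kernel
theorem k_l (β x : Bool) (k : Fin 2) : eqT (opG (lt x) (e4 β) (ty k)) (cb ty (cl x k)) = true := by
  revert β x k
  decide +kernel
theorem k_i (β x : Bool) (k : Fin 2) : eqT (opG (li x) (e4 β) (ty k)) (cb ty (ci x k)) = true := by
  revert β x k
  decide +kernel
theorem k_b (β : Bool) (k : Fin 2) : eqT (opG [.birth 2 β] (d2 β) (ty k))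
    (cb ![tb] (![![(1, 0)], ![(0, 0)]] k)) = true := by
  revert β k
  decide +kernel
theorem k_d (β : Bool) (k : Fin 1) : eqT (opG [.death 1] (e4 β) ((![tb] : Fin 1 → Tr) k))
    (cb ty (![(1, 0), (0, 0)])) = true := by
  revert β k
  decide +kernel

end Pool.Agent.K6.H17.EX
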