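import Pool.Agent.K6.H17.RB.Tree

/-!
# Evaluation of the state model at a square root of `-1`
-/

set_option autoImplicit false

namespace Pool.Agent.K6.H17.EX

open Pool.Agent.H835R2.Knot (Piece Word)
open Pool.Agent.H838R2.SL hiding ev ev_add ev_mk ev_smul
open Pool.Agent.H838R2.Jones
open Pool.Agent.Helper454.Wh (insD delD swpD noD OPiece OWord)
open Pool.Agent.K6.H17.RB Pool.Agent.K6.H17.RB.Tr

/-- the product with `p + q e` -/
def sm (p q : ℤ) : Tr → Tr
  | .z => .z
  | .leaf a b => .leaf (p * a - q * b) (p * b + q * a)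
  | .node l r => .node (sm p q l) (sm p q r)
/-- a maximum -/
def bG : ℕ → Tr → Tr
  | 0, t => add (sm 0 1 t.hi.lo) t.lo.hi
  | i + 1, t => mk (bG i t.lo) (bG i t.hi)
/-- a minimum -/
def dG : ℕ → Tr → Tr
  | 0, t => mk (mk .z (sm 0 (-1) t)) (mk t .z)
  | i + 1, t => mk (dG i t.lo) (dG i t.hi)
/-- a crossing -/
def xG (c : (ℤ × ℤ) × (ℤ × ℤ)) (i : ℕ) (t : Tr) : Tr :=
  add (sm c.1.1 c.1.2 t) (sm c.2.1 c.2.2 (dG i (bG i t)))
/-- the coefficients of the crossings -/
def cpG (b : Bool) : (ℤ × ℤ) × (ℤ × ℤ) := if b then ((0, -1), (1, 0)) else ((1, 0), (0, 1))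
/-- the coefficients of the crossings -/
def cnG (b : Bool) : (ℤ × ℤ) × (ℤ × ℤ) := if b then ((0, 1), (1, 0)) else ((1, 0), (0, -1))
/-- a piece -/
def pG : Piece → (ℕ → Bool) → Tr → Tr
  | .birth i _, _, t => bG i t
  | .death i, _, t => dG i t
  | .pos i, d, t => xG (cpG (d i == d (i + 1))) i t
  | .neg i, d, t => xG (cnG (d i == d (i + 1))) i t
/-- a word -/
def opG : Word → (ℕ → Bool) → Tr → Tr
  | [], _, t => t
  | p :: w, d, t => pG p d (opG w (nxt (toO p) d) t)

section
variable {S : Type} [CommRing S] {e : S} (he : e * e = -1)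
include he

theorem ev_sm (p q : ℤ) (t : Tr) (σ : ℕ → Bool) :
    ev e (sm p q t) σ = ((p : S) + (q : S) * e) * ev e t σ := by
  induction t generalizing σ with
  | z => simp [ev, sm]
  | leaf a b =>
    simp only [ev, sm]
    push_cast
    linear_combination -((q : S) * (b : S)) * he
  | node l r ihl ihr =>
    show (if σ 0 then ev e (sm p q r) _ else ev e (sm p q l) _) = _ * (if σ 0 then _ else _)
    rw [ihl, ihr]
    split_ifs <;> rfl

theorem ev_bG (i : ℕ) (t : Tr) (σ : ℕ → Bool) : ev e (bG i t) σ = Bl (-e) i (ev e t) σ := by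
  induction i generalizing t σ with
  | zero =>
    rw [bG, ev_add, ev_sm he, Bl_apply, ins_zero, ins_zero]
    simp only [ev_cons]
    simp
  | succ i ih =>
    rw [bG, ev_mk, ih, ih, Bl_apply, Bl_apply, Bl_apply, ins_succ, ins_succ, ev_cons, ev_cons]
    split_ifs <;> rfl

theorem ev_dG (i : ℕ) (t : Tr) (σ : ℕ → Bool) : ev e (dG i t) σ = Dl e i (ev e t) σ := by
  induction i generalizing t σ with
  | zero =>
    have hd : delD 0 σ = fun k => σ (k + 1 + 1) := by
      funext k
      simp [delD]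
    rw [dG, ev_mk, ev_mk, ev_mk, ev_sm he, Dl_apply, hd]
    simp only [ev]
    cases h0 : σ 0 <;> cases h1 : σ (0 + 1) <;> simp
  | succ i ih =>
    rw [dG, ev_mk, ih, ih, Dl_apply, Dl_apply, Dl_apply, del_succ, ev_cons]
    split_ifs <;> rfl

theorem ev_xG (c : (ℤ × ℤ) × (ℤ × ℤ)) (c' : S × S) (h1 : c'.1 = (c.1.1 : S) + (c.1.2 : S) * e)
    (h2 : c'.2 = (c.2.1 : S) + (c.2.2 : S) * e) (i : ℕ) (t : Tr) (σ : ℕ → Bool) :
    ev e (xG c i t) σ = Xl e (-e) c' i (ev e t) σ := by
  have hb : ev e (bG i t) = Bl (-e) i (ev e t) := funext (ev_bG he i t)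
  rw [xG, ev_add, ev_sm he, ev_sm he, ev_dG he, hb, Xl_apply, ← h1, ← h2]
  rfl

theorem ev_pG (p : Piece) (d : ℕ → Bool) (t : Tr) (σ : ℕ → Bool) :
    ev e (pG p d t) σ = opP e (-e) (toO p) d (ev e t) σ := by
  cases p with
  | birth i b => exact ev_bG he i t σ
  | death i => exact ev_dG he i t σ
  | pos i =>
    refine ev_xG he _ _ ?_ ?_ i t σ
    · cases d i == d (i + 1)
      · show -(-e) ^ 2 = ((1 : ℤ) : S) + ((0 : ℤ) : S) * e
        push_cast
        linear_combination (-1 : S) * he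
      · show -e = ((0 : ℤ) : S) + ((-1 : ℤ) : S) * e
        push_cast
        ring
    · cases d i == d (i + 1)
      · show -(-e) = ((0 : ℤ) : S) + ((1 : ℤ) : S) * e
        push_cast
        ring
      · show -e ^ 2 = ((1 : ℤ) : S) + ((0 : ℤ) : S) * e
        push_cast
        linear_combination (-1 : S) * he
  | neg i =>
    refine ev_xG he _ _ ?_ ?_ i t σ
    · cases d i == d (i + 1)
      · show -e ^ 2 = ((1 : ℤ) : S) + ((0 : ℤ) : S) * e
        push_cast
        linear_combination (-1 : S) * he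
      · show -(-e) = ((0 : ℤ) : S) + ((1 : ℤ) : S) * e
        push_cast
        ring
    · cases d i == d (i + 1)
      · show -e = ((0 : ℤ) : S) + ((-1 : ℤ) : S) * e
        push_cast
        ring
      · show -(-e) ^ 2 = ((1 : ℤ) : S) + ((0 : ℤ) : S) * e
        push_cast
        linear_combination (-1 : S) * he

theorem ev_opG (w : Word) (d : ℕ → Bool) (t : Tr) :
    ev e (opG w d t) = opD e (-e) w d (ev e t) := by
  induction w generalizing d with
  | nil => rfl
  | cons p w ih =>
    funext σ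
    rw [opG, ev_pG he, ih]
    rfl

/-- two trees with the same entries -/
def eqT (t u : Tr) : Bool := (add t (sm (-1) 0 u)).isZ

omit he in
theorem ev_isZ {t : Tr} (h : t.isZ = true) (σ : ℕ → Bool) : ev e t σ = 0 := by
  induction t generalizing σ with
  | z => rfl
  | leaf a b =>
    simp only [Tr.isZ, Bool.and_eq_true, decide_eq_true_eq] at h
    simp [Tr.ev, h.1, h.2]
  | node l r ihl ihr =>
    simp only [Tr.isZ, Bool.and_eq_true] at h
    show (if σ 0 then _ else _) = _
    rw [ihl h.1, ihr h.2]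
    simp

theorem ev_eqT {t u : Tr} (h : eqT t u = true) : ev e t = ev e u := by
  funext σ
  have h1 := ev_isZ (e := e) h σ
  rw [ev_add, ev_sm he] at h1
  push_cast at h1
  linear_combination h1

/-- a linear combination of two trees -/
theorem ev_add' (t u : Tr) : ev e (add t u) = ev e t + ev e u := funext fun σ => ev_add e t u σ

theorem ev_sm' (p q : ℤ) (t : Tr) : ev e (sm p q t) = ((p : S) + (q : S) * e) • ev e t :=
  funext fun σ => by rw [ev_sm he, Pi.smul_apply, smul_eq_mul]

end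

end Pool.Agent.K6.H17.EX
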